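import Mathlib

/-!
# Hensel's lemma for power series over a field
-/

set_option autoImplicit false

open Polynomial Function
open scoped Ring

namespace Pool.Agent.Helper15_IGP

/-- Hensel's lemma in an adically complete ring; the polynomial need not be monic. -/
theorem hensel_adic {R : Type*} [CommRing R] (I : Ideal R) [IsAdicComplete I R] (f : R[X])
    (a₀ : R) (h₁ : f.eval a₀ ∈ I) (h₂ : IsUnit (Ideal.Quotient.mk I (f.derivative.eval a₀))) :
    ∃ a, f.IsRoot a ∧ a - a₀ ∈ I := by
  classical
  let f' := derivative f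
  let c : ℕ → R := fun n => Nat.recOn n a₀ fun _ b => b - f.eval b * (f'.eval b)⁻¹ʳ
  have hc : ∀ n, c (n + 1) = c n - f.eval (c n) * (f'.eval (c n))⁻¹ʳ := by
    intro n
    simp only [c]
  have hc_mod : ∀ n, c n ≡ a₀ [SMOD I] := by
    intro n
    induction n with
    | zero => rfl
    | succ n ih => ?_
    rw [hc, sub_eq_add_neg, ← add_zero a₀]
    refine ih.add ?_
    rw [SModEq.zero, Ideal.neg_mem_iff]
    refine I.mul_mem_right _ ?_
    rw [← SModEq.zero] at h₁ ⊢
    exact (ih.eval f).trans h₁
  have hf'c : ∀ n, IsUnit (f'.eval (c n)) := by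
    intro n
    have := isLocalHom_of_le_jacobson_bot I (IsAdicComplete.le_jacobson_bot I)
    apply IsUnit.of_map (Ideal.Quotient.mk I)
    have h3 : (Ideal.Quotient.mk I) (eval (c n) f') = (Ideal.Quotient.mk I) (eval a₀ f') :=
      SModEq.def.mp ((hc_mod n).eval _)
    rw [h3]
    exact h₂
  have hfcI : ∀ n, f.eval (c n) ∈ I ^ (n + 1) := by
    intro n
    induction n with
    | zero => simpa only [Nat.rec_zero, zero_add, pow_one] using! h₁
    | succ n ih => ?_
    rw [← taylor_eval_sub (c n), hc, sub_eq_add_neg, sub_eq_add_neg,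
      add_neg_cancel_comm]
    rw [eval_eq_sum, sum_over_range' _ _ _ (lt_add_of_pos_right _ zero_lt_two), ←
      Finset.sum_range_add_sum_Ico _ (Nat.le_add_left _ _)]
    swap
    · intro i
      rw [zero_mul]
    refine Ideal.add_mem _ ?_ ?_
    · rw [← one_add_one_eq_two, Finset.sum_range_succ, Finset.range_one, Finset.sum_singleton,
        taylor_coeff_zero, taylor_coeff_one, pow_zero, pow_one, mul_one, mul_neg,
        mul_left_comm, Ring.mul_inverse_cancel _ (hf'c n), mul_one, add_neg_cancel]
      exact Ideal.zero_mem _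
    · refine Submodule.sum_mem _ ?_
      simp only [Finset.mem_Ico]
      rintro i ⟨h2i, _⟩
      have aux : n + 2 ≤ i * (n + 1) := by trans 2 * (n + 1) <;> nlinarith only [h2i]
      refine Ideal.mul_mem_left _ _ (Ideal.pow_le_pow_right aux ?_)
      rw [pow_mul']
      exact Ideal.pow_mem_pow ((Ideal.neg_mem_iff _).2 <| Ideal.mul_mem_right _ _ ih) _
  have aux : ∀ m n, m ≤ n → c m ≡ c n [SMOD (I ^ m • ⊤ : Ideal R)] := by
    intro m n hmn
    rw [← Ideal.one_eq_top, Ideal.smul_eq_mul, mul_one]
    obtain ⟨k, rfl⟩ := Nat.exists_eq_add_of_le hmn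
    clear hmn
    induction k with
    | zero => rw [add_zero]
    | succ k ih => ?_
    rw [← add_assoc, hc, ← add_zero (c m), sub_eq_add_neg]
    refine ih.add ?_
    symm
    rw [SModEq.zero, Ideal.neg_mem_iff]
    refine Ideal.mul_mem_right _ _ (Ideal.pow_le_pow_right ?_ (hfcI _))
    rw [add_assoc]
    exact le_self_add
  obtain ⟨a, ha⟩ := IsPrecomplete.prec' c (aux _ _)
  refine ⟨a, ?_, ?_⟩
  · show f.IsRoot a
    suffices ∀ n, f.eval a ≡ 0 [SMOD (I ^ n • ⊤ : Ideal R)] by exact IsHausdorff.haus' _ this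
    intro n
    specialize ha n
    rw [← Ideal.one_eq_top, Ideal.smul_eq_mul, mul_one] at ha ⊢
    refine (ha.symm.eval f).trans ?_
    rw [SModEq.zero]
    exact Ideal.pow_le_pow_right le_self_add (hfcI _)
  · show a - a₀ ∈ I
    specialize ha (0 + 1)
    rw [hc, pow_one, ← Ideal.one_eq_top, Ideal.smul_eq_mul, mul_one, sub_eq_add_neg] at ha
    rw [← SModEq.sub_mem, ← add_zero a₀]
    refine ha.symm.trans (SModEq.rfl.add ?_)
    rw [SModEq.zero, Ideal.neg_mem_iff]
    exact Ideal.mul_mem_right _ _ h₁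

variable {κ : Type*} [Field κ]

theorem eval_map_constantCoeff (f : (PowerSeries κ)[X]) (a : PowerSeries κ) :
    (f.map (PowerSeries.constantCoeff (R := κ))).eval (PowerSeries.constantCoeff a) = PowerSeries.constantCoeff (f.eval a) := by
  rw [Polynomial.eval_map, Polynomial.eval₂_hom]

/-- Hensel's lemma for power series. -/
theorem exists_root_ps (f : (PowerSeries κ)[X]) (c : κ)
    (h0 : (f.map (PowerSeries.constantCoeff (R := κ))).eval c = 0)
    (h1 : (derivative (f.map (PowerSeries.constantCoeff (R := κ)))).eval c ≠ 0) :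
    ∃ a : PowerSeries κ, f.eval a = 0 ∧ PowerSeries.constantCoeff a = c := by
  have hc : PowerSeries.constantCoeff (PowerSeries.C c : PowerSeries κ) = c := by simp
  obtain ⟨a, ha, ha'⟩ := hensel_adic (Ideal.span {(PowerSeries.X : PowerSeries κ)}) f
    (PowerSeries.C c) (by
      rw [Ideal.mem_span_singleton, PowerSeries.X_dvd_iff, ← eval_map_constantCoeff, hc, h0]) (by
      apply IsUnit.map
      rw [PowerSeries.isUnit_iff_constantCoeff, ← eval_map_constantCoeff, hc,
        ← Polynomial.derivative_map]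
      exact isUnit_iff_ne_zero.2 h1)
  refine ⟨a, ha, ?_⟩
  rw [Ideal.mem_span_singleton, PowerSeries.X_dvd_iff, map_sub, hc, sub_eq_zero] at ha'
  exact ha'

theorem root_unique_ps (f : (PowerSeries κ)[X]) (a b : PowerSeries κ) (ha : f.eval a = 0)
    (hb : f.eval b = 0) (hab : PowerSeries.constantCoeff a = PowerSeries.constantCoeff b)
    (h1 : (derivative (f.map (PowerSeries.constantCoeff (R := κ)))).eval (PowerSeries.constantCoeff a) ≠ 0) : a = b := by
  refine IsLocalRing.eq_of_eval_eq_zero_of_not_isUnit_sub ha hb ?_ ?_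
  · rw [PowerSeries.isUnit_iff_constantCoeff, map_sub, hab, sub_self]
    exact not_isUnit_zero
  · rw [PowerSeries.isUnit_iff_constantCoeff, ← eval_map_constantCoeff,
      ← Polynomial.derivative_map]
    exact isUnit_iff_ne_zero.2 h1

end Pool.Agent.Helper15_IGP
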